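import Mathlib
import Pool.Agent.Q9.DE.Fin

set_option autoImplicit false

/-!
# The diagonal Moebius-twisted Elliott-Halberstam conjecture for almost all integers

There is ONE set `S` of natural numbers with `#(S ∩ [1, X]) = O(X / (log X)^B)` for every `B` such that
`dEH(N^θ)` holds for the integers `N` outside of `S`, for every `θ < 1`, every power of the logarithm and
both functions `g₁ = μ` and `g₂ = μ log`.  Even the level `N exp (- (log N)^ε)` is admissible, `ε > 0`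
arbitrary.  Nothing is assumed.

Proof.  For each modulus `q` the sum over `n ≡ N (mod q)` is `∑ Λ(N - q m) g(q m)`, and
`μ(q m) = μ(q) μ(m)` or `0`.  By Parseval's identity the mean square over `N ≤ X` is at most
`sup_α |∑_{m ≤ X/q} g(q m) e(α m)|^2 ∑ Λ(n)^2`.  The supremum is estimated by Davenport's theorem
(module `Pool.Agent.H373R2.T7.SupMu` of the starting files), applied to sums of length `X / (q d)`, where
`d` runs through the integers composed of primes dividing `q`; the large `d` contribute at most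
`τ(q)^2 (X / q)^(3/4)`.  This saves all powers of the logarithm over the trivial bound `X^2 / q` for
each `q`, and the absolute values cost nothing.
-/

namespace Pool.Agent.Results.MP_e9eb55_nt.AlmostAllIntegers

open ArithmeticFunction

/-- `g₁(m) = μ(m)`. -/
noncomputable def g₁ (m : ℕ) : ℝ := ((moebius m : ℤ) : ℝ)

/-- `g₂(m) = μ(m) log m`. -/
noncomputable def g₂ (m : ℕ) : ℝ := ((moebius m : ℤ) : ℝ) * Real.log m

/-- The sum over the moduli `q ≤ Q` prime to `N` of the absolute value of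
`∑_{n < N, n ≡ N (mod q)} Λ(n) g(N - n) - (1 / φ(q)) ∑_{n < N} Λ(n) g(N - n)`; the `D_g(N; θ)` of the
problem is `D g N (N ^ θ)`. -/
noncomputable def D (g : ℕ → ℝ) (N : ℕ) (Q : ℝ) : ℝ :=
  ∑ q ∈ (Finset.Icc 1 ⌊Q⌋₊).filter (fun q => q.Coprime N),
    |∑ n ∈ (Finset.Ico 1 N).filter (fun n => n ≡ N [MOD q]), vonMangoldt n * g (N - n) -
      1 / (Nat.totient q : ℝ) * ∑ n ∈ Finset.Ico 1 N, vonMangoldt n * g (N - n)|

/-- **Theorem.** There is a set `S` of natural numbers, with at most `X / (log X)^B` elements up to `X`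
for every `B` and all `X ≥ X₀(B)`, such that for all `0 < θ < 1`, all `A` and both `g = g₁`, `g = g₂` the
bound `D_g(N; θ) ≤ N / (log N)^A` holds for all large `N` outside of `S`; and the same holds with the
level `N exp (- (log N)^ε)` in place of `N^θ`, for every `ε > 0`. -/
theorem result : ∃ S : Set ℕ,
    (∀ B : ℝ, ∃ X₀ : ℕ, ∀ X : ℕ, X₀ ≤ X → ((S ∩ Set.Icc 1 X).ncard : ℝ) ≤ X / Real.log X ^ B) ∧
    (∀ θ : ℝ, 0 < θ → θ < 1 → ∀ A : ℝ, ∃ N₀ : ℕ, ∀ N : ℕ, N₀ ≤ N → N ∉ S →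
      D g₁ N ((N : ℝ) ^ θ) ≤ N / Real.log N ^ A ∧ D g₂ N ((N : ℝ) ^ θ) ≤ N / Real.log N ^ A) ∧
    (∀ ε : ℝ, 0 < ε → ∀ A : ℝ, ∃ N₀ : ℕ, ∀ N : ℕ, N₀ ≤ N → N ∉ S →
      D g₁ N (N * Real.exp (-Real.log N ^ ε)) ≤ N / Real.log N ^ A ∧
        D g₂ N (N * Real.exp (-Real.log N ^ ε)) ≤ N / Real.log N ^ A) := by
  obtain ⟨S, h1, h2⟩ := Pool.Agent.Q9.DE.main0
  have hlog : Filter.Tendsto (fun X : ℕ => Real.log (X : ℝ)) Filter.atTop Filter.atTop :=
    Real.tendsto_log_atTop.comp tendsto_natCast_atTop_atTop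
  have hlog1 : ∀ N : ℕ, 3 ≤ N → 1 ≤ Real.log N := by
    intro N hN
    rw [Real.le_log_iff_exp_le (by positivity)]
    have : (3 : ℝ) ≤ N := by exact_mod_cast hN
    linarith [Real.exp_one_lt_d9]
  -- a general level
  have key : ∀ Q : ℕ → ℝ, (∃ k : ℕ, ∃ N₁ : ℕ, ∀ N : ℕ, N₁ ≤ N →
      Q N ≤ (N : ℝ) / Real.exp (Pool.Agent.Q9.DE.rt (k + 1) (Real.log N))) → ∀ A : ℝ, ∃ N₀ : ℕ, ∀ N : ℕ, N₀ ≤ N → N ∉ S →
      D g₁ N (Q N) ≤ N / Real.log N ^ A ∧ D g₂ N (Q N) ≤ N / Real.log N ^ A := by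
    rintro Q ⟨k, N₁, hk⟩ A
    set j : ℕ := max k ⌈A⌉₊ with hj
    obtain ⟨N₀, h3⟩ := h2 j
    refine ⟨max (max N₀ N₁) 3, fun N hN hNS => ?_⟩
    have hN0 : N₀ ≤ N := le_trans (le_trans (le_max_left _ _) (le_max_left _ _)) hN
    have hN1 : N₁ ≤ N := le_trans (le_trans (le_max_right _ _) (le_max_left _ _)) hN
    have hN3 : 3 ≤ N := le_trans (le_max_right _ _) hN
    have hL := hlog1 N hN3
    have hQ : ⌊Q N⌋₊ ≤ Pool.Agent.Q9.DE.lev (j + 1) N := by
      unfold Pool.Agent.Q9.DE.lev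
      apply Nat.floor_le_floor
      refine (hk N hN1).trans ?_
      apply div_le_div_of_nonneg_left (by positivity) (Real.exp_pos _)
      apply Real.exp_le_exp.2
      unfold Pool.Agent.Q9.DE.rt
      apply Real.rpow_le_rpow_of_exponent_le hL
      apply one_div_le_one_div_of_le (by positivity)
      have : (k : ℝ) ≤ j := by exact_mod_cast le_max_left _ _
      push_cast
      linarith
    have hA : (N : ℝ) / Real.log N ^ (j + 1) ≤ N / Real.log N ^ A := by
      apply div_le_div_of_nonneg_left (by positivity) (Real.rpow_pos_of_pos (by linarith) _)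
      rw [← Real.rpow_natCast]
      apply Real.rpow_le_rpow_of_exponent_le hL
      have h4 : A ≤ ⌈A⌉₊ := Nat.le_ceil A
      have h5 : (⌈A⌉₊ : ℝ) ≤ j := by exact_mod_cast le_max_right _ _
      push_cast
      linarith
    have h4 : ∀ g : ℕ → ℝ, Pool.Agent.Q9.DE.IsG g → D g N (Q N) ≤ N / Real.log N ^ A := by
      intro g hg
      exact (Pool.Agent.Q9.DE.DQ_mono g N _ _ hQ).trans ((h3 N hN0 hNS g hg).trans hA)
    exact ⟨h4 g₁ (Or.inl rfl), h4 g₂ (Or.inr rfl)⟩
  have hrt : ∀ k : ℕ, ∀ x : ℝ, Pool.Agent.Q9.DE.rt (k + 1) x = x ^ (1 / ((k : ℝ) + 1)) := by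
    intro k x
    unfold Pool.Agent.Q9.DE.rt
    push_cast
    rfl
  refine ⟨S, ?_, ?_, ?_⟩
  · intro B
    obtain ⟨X₀, h3⟩ := h1 ⌈B⌉₊
    refine ⟨max X₀ 3, fun X hX => ?_⟩
    have hX3 : 3 ≤ X := le_trans (le_max_right _ _) hX
    refine (h3 X (le_trans (le_max_left _ _) hX)).trans ?_
    have hL := hlog1 X hX3
    apply div_le_div_of_nonneg_left (by positivity) (Real.rpow_pos_of_pos (by linarith) _)
    rw [← Real.rpow_natCast]
    exact Real.rpow_le_rpow_of_exponent_le hL (Nat.le_ceil B)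
  · intro θ hθ hθ1 A
    refine key (fun N => (N : ℝ) ^ θ) ⟨1, ?_⟩ A
    -- `(log N)^(1/2) ≤ (1 - θ) log N`
    have h3 : ∀ᶠ N : ℕ in Filter.atTop, Pool.Agent.Q9.DE.rt (1 + 1) (Real.log N) ≤ (1 - θ) * Real.log N := by
      have h4 : Filter.Tendsto (fun N : ℕ => Pool.Agent.Q9.DE.rt (1 + 1) (Real.log (N : ℝ))) Filter.atTop Filter.atTop :=
        (tendsto_rpow_atTop (by positivity)).comp hlog
      filter_upwards [h4.eventually_ge_atTop (1 / (1 - θ)), hlog.eventually_ge_atTop 0] with N h5 h6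
      have h7 := Pool.Agent.Q9.DE.rt_pow (1 + 1) (by norm_num) (Real.log (N : ℝ)) h6
      have h8 : 0 < 1 - θ := by linarith
      rw [div_le_iff₀ h8] at h5
      set r := Pool.Agent.Q9.DE.rt (1 + 1) (Real.log (N : ℝ))
      have hr : 0 ≤ r := Real.rpow_nonneg h6 _
      rw [← h7]
      calc r = r * 1 := (mul_one r).symm
        _ ≤ r * (r * (1 - θ)) := mul_le_mul_of_nonneg_left h5 hr
        _ = (1 - θ) * r ^ (1 + 1) := by ring
    obtain ⟨N₁, h4⟩ := Filter.eventually_atTop.1 h3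
    refine ⟨max N₁ 3, fun N hN => ?_⟩
    have hN3 : 3 ≤ N := le_trans (le_max_right _ _) hN
    have hN0 : (0 : ℝ) < N := by positivity
    have h5 := h4 N (le_trans (le_max_left _ _) hN)
    rw [le_div_iff₀ (Real.exp_pos _), Real.rpow_def_of_pos hN0, ← Real.exp_add]
    calc Real.exp (Real.log N * θ + Pool.Agent.Q9.DE.rt (1 + 1) (Real.log N)) ≤ Real.exp (Real.log N) := by
          apply Real.exp_le_exp.2; linarith
      _ = N := Real.exp_log hN0
  · intro ε hε A
    obtain ⟨k, hk⟩ := exists_nat_one_div_lt hε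
    refine key (fun N => (N : ℝ) * Real.exp (-Real.log N ^ ε)) ⟨k, 3, fun N hN => ?_⟩ A
    have hL := hlog1 N hN
    rw [Real.exp_neg, ← div_eq_mul_inv]
    apply div_le_div_of_nonneg_left (by positivity) (Real.exp_pos _)
    apply Real.exp_le_exp.2
    rw [hrt]
    exact Real.rpow_le_rpow_of_exponent_le hL hk.le

end Pool.Agent.Results.MP_e9eb55_nt.AlmostAllIntegers
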