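import Pool.Agent.Results.MP_e9eb55_nt.AlmostAllIntegers
import Pool.Agent.Q319.DR.Own

/-!
# The diagonal Moebius-twisted Elliott-Halberstam conjecture at the dilates of sparse sequences by almost every number

* For almost every real `α > 0`, `dEH(N^θ)` holds for ALL integers `N` in the windows of radius `(log b_k)^A` around the
  numbers `α b_k`, for all large `k`, all `θ < 1`, all powers of the logarithm and both functions `g₁ = μ`,
  `g₂ = μ log`; here `b` is an arbitrary sequence of integers with `b_k ≥ exp (k^δ)`, for instance `b_k = 2^k`. Even the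
  level `N exp (- (log N)^ε)` is admissible, `ε > 0` arbitrary.
* For `0 < τ < 1` there is `κ₀ > 0` such that for all real `y ∈ [M ^ (1 - τ), 2 M ^ (1 - τ)]` outside a set of measure
  at most `M ^ (1 - τ - κ₀)` the bound holds for ALL integers `N` in the windows of radius `log ^ A M` around the
  multiples `k y`, `k ≤ M ^ τ`, with at most `M ^ τ / log ^ U M` exceptional `k`.

Nothing is assumed. The theorem for almost all integers is the hand-in `AlmostAllIntegers` of this problem (by helper9);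
the count of the elements of arbitrary sets of integers in intervals at multiples of real numbers is from the starting
files (`Pool.Agent.H438R2.DL`).
-/

set_option autoImplicit false

namespace Pool.Agent.Results.MP_e9eb55_nt.DilatesByAlmostEveryNumber

open ArithmeticFunction Filter MeasureTheory

/-- `g₁(m) = μ(m)`. -/
noncomputable def g₁ (m : ℕ) : ℝ := ((moebius m : ℤ) : ℝ)

/-- `g₂(m) = μ(m) log m`. -/
noncomputable def g₂ (m : ℕ) : ℝ := ((moebius m : ℤ) : ℝ) * Real.log m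

/-- The sum over the moduli `q ≤ Q` prime to `N` of the absolute value of
`∑_{n < N, n ≡ N (mod q)} Λ(n) g(N - n) - (1 / φ(q)) ∑_{n < N} Λ(n) g(N - n)`; the `D_g(N; θ)` of the
problem is `D g N (N ^ θ)`. -/
noncomputable def D (g : ℕ → ℝ) (N : ℕ) (Q : ℝ) : ℝ :=
  ∑ q ∈ (Finset.Icc 1 ⌊Q⌋₊).filter (fun q => q.Coprime N),
    |∑ n ∈ (Finset.Ico 1 N).filter (fun n => n ≡ N [MOD q]), vonMangoldt n * g (N - n) -
      1 / (Nat.totient q : ℝ) * ∑ n ∈ Finset.Ico 1 N, vonMangoldt n * g (N - n)|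

/-- The bound of the problem for the integer `N`, the level `Q` and the power `A` of the logarithm. -/
def Good (Q : ℝ) (A : ℝ) (N : ℕ) : Prop :=
  D g₁ N Q ≤ N / Real.log N ^ A ∧ D g₂ N Q ≤ N / Real.log N ^ A

/-- The two kinds of levels: `N ^ θ` and `N exp (- (log N) ^ ε)`. -/
def IsLevel (Q : ℕ → ℝ) : Prop :=
  (∃ θ : ℝ, 0 < θ ∧ θ < 1 ∧ ∀ N : ℕ, Q N = (N : ℝ) ^ θ) ∨
    (∃ ε : ℝ, 0 < ε ∧ ∀ N : ℕ, Q N = N * Real.exp (-Real.log N ^ ε))

open Classical in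
/-- The number of the `k` with `1 ≤ k ≤ K` for which not all natural numbers `N` at a distance of at most `w` from `k y`
have the property `P`. -/
noncomputable def exceptions (K y w : ℝ) (P : ℕ → Prop) : ℕ :=
  ((Finset.Icc 1 ⌊K⌋₊).filter (fun k : ℕ => ∃ N : ℕ, |(N : ℝ) - k * y| ≤ w ∧ ¬ P N)).card

lemma base : ∃ S : Set ℕ, Pool.Agent.Q319.DR.Sparse (fun _ q => q ∈ S) ∧
    ∀ Q : ℕ → ℝ, IsLevel Q → ∀ A : ℝ, ∃ N₀ : ℕ, ∀ N : ℕ, N₀ ≤ N → N ∉ S → Good (Q N) A N := by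
  obtain ⟨S, h1, h2, h3⟩ := Pool.Agent.Results.MP_e9eb55_nt.AlmostAllIntegers.result
  refine ⟨S, Pool.Agent.Q319.DR.sparse_set S fun U => ?_, ?_⟩
  · obtain ⟨X₀, h⟩ := h1 U
    refine ⟨X₀, fun N hN => ?_⟩
    have h4 := h N hN
    rwa [Real.rpow_natCast] at h4
  · rintro Q (⟨θ, hθ, hθ1, hQ⟩ | ⟨ε, hε, hQ⟩) A
    · obtain ⟨N₀, h⟩ := h2 θ hθ hθ1 A
      exact ⟨N₀, fun N hN hNS => by rw [hQ N]; exact h N hN hNS⟩
    · obtain ⟨N₀, h⟩ := h3 ε hε A
      exact ⟨N₀, fun N hN hNS => by rw [hQ N]; exact h N hN hNS⟩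

/-- **Theorem.**
* Let `b` be a sequence of natural numbers with `b k ≥ exp (k ^ δ)` for all large `k`, where `δ > 0`. For almost every
  real number `α > 0` the following holds for all `A₀`, all `A` and all levels `Q N = N ^ θ` (`0 < θ < 1`) or
  `Q N = N exp (- (log N) ^ ε)` (`ε > 0`): for all large `k` ALL natural numbers `N` with `|N - α b k| ≤ (log b k) ^ A₀`
  satisfy `D g N (Q N) ≤ N / (log N) ^ A` for `g = g₁` and `g = g₂`.
* Let `0 < τ < 1`. There is `κ₀ > 0` such that for all levels `Q`, all `A₀`, `A`, `U` and all large `M` there is a set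
  `E` of real numbers of measure at most `M ^ (1 - τ - κ₀)` such that for every real number `y` with
  `M ^ (1 - τ) ≤ y ≤ 2 M ^ (1 - τ)` which does not belong to `E`, and for all `k ≤ M ^ τ` with at most
  `M ^ τ / log ^ U M` exceptions, ALL natural numbers `N` with `|N - k y| ≤ log ^ A₀ M` satisfy this bound. -/
theorem result :
    (∀ (b : ℕ → ℕ) (δ : ℝ), 0 < δ → (∀ᶠ k : ℕ in atTop, Real.exp ((k : ℝ) ^ δ) ≤ b k) →
      ∀ᵐ α : ℝ, 0 < α → ∀ (A₀ : ℕ) (A : ℝ) (Q : ℕ → ℝ), IsLevel Q → ∀ᶠ k : ℕ in atTop,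
        ∀ N : ℕ, |(N : ℝ) - α * b k| ≤ Real.log (b k) ^ A₀ → Good (Q N) A N) ∧
    (∀ τ : ℝ, 0 < τ → τ < 1 → ∃ κ₀ : ℝ, 0 < κ₀ ∧ ∀ (Q : ℕ → ℝ), IsLevel Q → ∀ (A₀ U : ℕ) (A : ℝ), ∃ M₀ : ℕ,
      ∀ M : ℕ, M₀ ≤ M → ∃ E : Set ℝ, MeasurableSet E ∧ volume E ≤ ENNReal.ofReal ((M : ℝ) ^ (1 - τ - κ₀)) ∧
        ∀ y : ℝ, (M : ℝ) ^ (1 - τ) ≤ y → y ≤ 2 * (M : ℝ) ^ (1 - τ) → y ∉ E →
          (exceptions ((M : ℝ) ^ τ) y (Real.log M ^ A₀) (fun N => Good (Q N) A N) : ℝ) ≤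
            (M : ℝ) ^ τ / Real.log M ^ U) := by
  classical
  obtain ⟨S, hS, hgood⟩ := base
  constructor
  · intro b δ hδ hb
    have h1 := Pool.Agent.Q319.DR.lac_all_count (fun _ _ q => q ∈ S) (fun _ => hS) b δ hδ hb
    have hbt : Tendsto (fun k => ((b k : ℕ) : ℝ)) atTop atTop := by
      have h1 : Tendsto (fun k : ℕ => Real.exp ((k : ℝ) ^ δ)) atTop atTop :=
        Real.tendsto_exp_atTop.comp ((tendsto_rpow_atTop hδ).comp tendsto_natCast_atTop_atTop)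
      exact tendsto_atTop_mono' _ hb h1
    filter_upwards [h1] with α hα hα0 A₀ A Q hQ
    obtain ⟨N₀, h2⟩ := hgood Q hQ A
    have e1 : ∀ᶠ k : ℕ in atTop, (2 / α) * Real.log (b k) ^ A₀ ≤ ((b k : ℕ) : ℝ) ^ (1 : ℝ) :=
      hbt.eventually (Pool.Agent.Q319.DR.ev_pow 1 one_pos A₀ (2 / α))
    have e2 : ∀ᶠ k : ℕ in atTop, (2 * (N₀ : ℝ) / α) ≤ b k := hbt.eventually_ge_atTop _
    filter_upwards [hα hα0 A₀ 0, e1, e2] with k hk f1 f2 N hN
    refine h2 N ?_ (hk N hN)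
    rw [Real.rpow_one, div_mul_eq_mul_div, div_le_iff₀ hα0] at f1
    rw [div_le_iff₀ hα0] at f2
    have h5 := (abs_le.1 hN).1
    have h6 : (N₀ : ℝ) ≤ N := by linarith
    exact_mod_cast h6
  · intro τ hτ hτ1
    obtain ⟨κ₀, hκ₀, h⟩ := Pool.Agent.Q319.DR.mult_few τ hτ hτ1
    refine ⟨κ₀, hκ₀, fun Q hQ A₀ U A => ?_⟩
    obtain ⟨N₀, h2⟩ := hgood Q hQ A
    obtain ⟨M₁, h1⟩ := h _ hS A₀ U
    have hex : ∀ᶠ Y : ℝ in atTop, 2 * Real.log Y ^ A₀ ≤ Y ^ ((1 - τ) : ℝ) ∧ 2 * (N₀ : ℝ) * Real.log Y ^ 0 ≤ Y ^ ((1 - τ) : ℝ) := by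
      filter_upwards [Pool.Agent.Q319.DR.ev_pow (1 - τ) (by linarith) A₀ 2,
        Pool.Agent.Q319.DR.ev_pow (1 - τ) (by linarith) 0 (2 * N₀)] with Y a b
      exact ⟨a, b⟩
    obtain ⟨M₂, h3⟩ := (tendsto_natCast_atTop_atTop.eventually hex).exists_forall_of_atTop
    refine ⟨M₁ + M₂, fun M hM => ?_⟩
    obtain ⟨f1, f2⟩ := h3 M (by omega)
    rw [pow_zero, mul_one] at f2
    obtain ⟨E, hE1, hE2, hE3⟩ := h1 M (by omega)
    refine ⟨E, hE1, hE2, fun y hy1 hy2 hyE => le_trans ?_ (hE3 y hy1 hy2 hyE)⟩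
    unfold exceptions
    apply Nat.cast_le.2
    apply Finset.card_le_card
    intro k hk
    rw [Finset.mem_filter] at hk ⊢
    obtain ⟨hk1, N, hN1, hN2⟩ := hk
    refine ⟨hk1, N, hN1, ?_⟩
    by_contra hcon
    apply hN2
    refine h2 N ?_ hcon
    have hk2 : (1 : ℝ) ≤ k := by exact_mod_cast (Finset.mem_Icc.1 hk1).1
    have h5 := (abs_le.1 hN1).1
    have h6 : y ≤ k * y := by
      have : 0 ≤ y := le_trans (by positivity) hy1
      nlinarith
    have h7 : (N₀ : ℝ) ≤ N := by linarith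
    exact_mod_cast h7

end Pool.Agent.Results.MP_e9eb55_nt.DilatesByAlmostEveryNumber
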