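import Pool.Agent.Q44.LogB
import Pool.Agent.Results.MP_e9eb55_nt.AlmostAllIntegers

set_option autoImplicit false

/-! # The diagonal Moebius-twisted Elliott–Halberstam conjecture at continued fractions

For almost every real number `α`, all integers `(u, v) ≠ (0, 0)`, all `0 < θ < 1`, all `A` and both `g = g₁`, `g = g₂`
the bound `D_g(N; θ) ≤ N / (log N)^A` holds for the integers `N = |u p + v q|`, for all but finitely many of the
convergents `p / q` of the continued fraction of `α`; in particular for the denominators and the numerators.  More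
generally, in every dimension `d`, for almost every `α` in `ℝ ^ d` it holds for the absolute value `N` of every linear
form in the denominator `x₀` and the numerators `x₁, …, x_d` of the simultaneous rational approximations of `α` with
`|α_j - x_j / x₀| ≤ (1 + log x₀) ^ T x₀ ^ (-(1 + 1/d))`, for all but finitely many of them (by Dirichlet's theorem every
`α` has infinitely many of them).  The same for the level `N exp (- (log N)^ε)` in place of `N ^ θ`. -/

namespace Pool.Agent.Results.MP_e9eb55_nt.GoodApproximations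

open ArithmeticFunction Pool.Agent.Q44.CF

/-- `g₁(m) = μ(m)`. -/
noncomputable def g₁ (m : ℕ) : ℝ := ((moebius m : ℤ) : ℝ)

/-- `g₂(m) = μ(m) log m`. -/
noncomputable def g₂ (m : ℕ) : ℝ := ((moebius m : ℤ) : ℝ) * Real.log m

/-- The sum over the moduli `q ≤ Q` prime to `N` of the absolute value of
`∑_{n < N, n ≡ N (mod q)} Λ(n) g(N - n) - (1 / φ(q)) ∑_{n < N} Λ(n) g(N - n)`; the `D_g(N; θ)` of the
problem is `D g N (N ^ θ)`. -/
noncomputable def D (g : ℕ → ℝ) (N : ℕ) (Q : ℝ) : ℝ :=
  ∑ q ∈ (Finset.Icc 1 ⌊Q⌋₊).filter (fun q => q.Coprime N),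
    |∑ n ∈ (Finset.Ico 1 N).filter (fun n => n ≡ N [MOD q]), vonMangoldt n * g (N - n) -
      1 / (Nat.totient q : ℝ) * ∑ n ∈ Finset.Ico 1 N, vonMangoldt n * g (N - n)|

/-- `D_g ≤ N / (log N)^A` for `g = g₁` and `g = g₂`, with the level `Q` -/
def Bound (A Q : ℝ) (N : ℕ) : Prop :=
  D g₁ N Q ≤ N / Real.log N ^ A ∧ D g₂ N Q ≤ N / Real.log N ^ A

/-- **Theorem.** In the sense of `AtDirichletApproximations` (linear forms in the denominators and the numerators of the
convergents of the continued fractions of almost all real numbers, and of the good simultaneous rational approximations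
of almost all points of `ℝ ^ d`) the bound `D_g(N; θ) ≤ N / (log N)^A` holds for all `0 < θ < 1`, all `A` and both
`g = g₁`, `g = g₂`, and also with the level `N exp (- (log N)^ε)` in place of `N ^ θ`. -/
theorem result :
    (∀ θ A : ℝ, 0 < θ → θ < 1 → AtDirichletApproximations (fun N => Bound A ((N : ℝ) ^ θ) N)) ∧
    (∀ ε A : ℝ, 0 < ε → AtDirichletApproximations (fun N => Bound A (N * Real.exp (-Real.log N ^ ε)) N)) := by
  obtain ⟨S, h1, h2, h3⟩ := AlmostAllIntegers.result
  have hS : ∀ N₀ : ℕ, LogFew (fun n => n ∈ S ∨ n < N₀) := by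
    refine logFew_of fun U _ => ?_
    obtain ⟨X₀, hX⟩ := h1 U
    refine ⟨1, X₀, fun X hXX F hF => ?_⟩
    rw [one_mul]
    refine le_trans ?_ (hX X hXX)
    rw [← Set.ncard_coe_finset]
    refine Nat.cast_le.2 (Set.ncard_le_ncard ?_ ((Set.finite_Icc 1 X).subset Set.inter_subset_right))
    intro n hn
    have h4 := hF n (Finset.mem_coe.1 hn)
    exact ⟨h4.2.2, h4.1, h4.2.1⟩
  refine ⟨fun θ A hθ hθ1 => ?_, fun ε A hε => ?_⟩
  · obtain ⟨N₀, hN⟩ := h2 θ hθ hθ1 A
    refine atLog_of (hS N₀) fun n hn => ?_
    by_contra hcon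
    push Not at hcon
    exact hn (hN n hcon.2 hcon.1)
  · obtain ⟨N₀, hN⟩ := h3 ε hε A
    refine atLog_of (hS N₀) fun n hn => ?_
    by_contra hcon
    push Not at hcon
    exact hn (hN n hcon.2 hcon.1)

end Pool.Agent.Results.MP_e9eb55_nt.GoodApproximations
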