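import Pool.Agent.Q44.LogB
import Pool.Agent.Q116.RP.LogCore
import Pool.Agent.Results.MP_e9eb55_nt.AlmostAllIntegers

set_option autoImplicit false

/-! # The diagonal Moebius-twisted Elliott–Halberstam conjecture near the powers of real numbers

For almost every real number `α > 1`, all `0 < θ < 1`, all `A` and both `g = g₁`, `g = g₂` the bound
`D_g(N; θ) ≤ N / (log N)^A` holds for ALL integers `N` with `|N - c α ^ k| ≤ k ^ K`, if `k` is large; in particular
for `N = ⌊α ^ k⌋`.  The same for `c α ^ (r k)` with real exponents `r k` which grow at least like a power of `k`, and for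
the level `N exp (- (log N)^ε)` in place of `N ^ θ`. -/

namespace Pool.Agent.Results.MP_e9eb55_nt.RealPowers

open ArithmeticFunction Pool.Agent.Q44.CF Pool.Agent.Q116.RP

/-- `g₁(m) = μ(m)`. -/
noncomputable def g₁ (m : ℕ) : ℝ := ((moebius m : ℤ) : ℝ)

/-- `g₂(m) = μ(m) log m`. -/
noncomputable def g₂ (m : ℕ) : ℝ := ((moebius m : ℤ) : ℝ) * Real.log m

/-- The sum over the moduli `q ≤ Q` prime to `N` of the absolute value of
`∑_{n < N, n ≡ N (mod q)} Λ(n) g(N - n) - (1 / φ(q)) ∑_{n < N} Λ(n) g(N - n)`; the `D_g(N; θ)` of the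
problem is `D g N (N ^ θ)`. -/
noncomputable def D (g : ℕ → ℝ) (N : ℕ) (Q : ℝ) : ℝ :=
  ∑ q ∈ (Finset.Icc 1 ⌊Q⌋₊).filter (fun q => q.Coprime N),
    |∑ n ∈ (Finset.Ico 1 N).filter (fun n => n ≡ N [MOD q]), vonMangoldt n * g (N - n) -
      1 / (Nat.totient q : ℝ) * ∑ n ∈ Finset.Ico 1 N, vonMangoldt n * g (N - n)|

/-- `D_g ≤ N / (log N)^A` for `g = g₁` and `g = g₂`, with the level `Q` -/
def Bound (A Q : ℝ) (N : ℕ) : Prop :=
  D g₁ N Q ≤ N / Real.log N ^ A ∧ D g₂ N Q ≤ N / Real.log N ^ A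

/-- **Theorem.** In the sense of `NearRealPowers` (all integers near `c α ^ (r k)`, for almost all real `α > 1`) the
bound `D_g(N; θ) ≤ N / (log N)^A` holds for all `0 < θ < 1`, all `A` and both `g = g₁`, `g = g₂`, and also with the
level `N exp (- (log N)^ε)` in place of `N ^ θ`. -/
theorem result :
    (∀ θ A : ℝ, 0 < θ → θ < 1 → NearRealPowers (fun N => Bound A ((N : ℝ) ^ θ) N)) ∧
    (∀ ε A : ℝ, 0 < ε → NearRealPowers (fun N => Bound A (N * Real.exp (-Real.log N ^ ε)) N)) := by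
  obtain ⟨S, h1, h2, h3⟩ := AlmostAllIntegers.result
  have hS : ∀ N₀ : ℕ, LogFew (fun n => n ∈ S ∨ n < N₀) := by
    refine logFew_of fun U _ => ?_
    obtain ⟨X₀, hX⟩ := h1 U
    refine ⟨1, X₀, fun X hXX F hF => ?_⟩
    rw [one_mul]
    refine le_trans ?_ (hX X hXX)
    rw [← Set.ncard_coe_finset]
    refine Nat.cast_le.2 (Set.ncard_le_ncard ?_ ((Set.finite_Icc 1 X).subset Set.inter_subset_right))
    intro n hn
    have h4 := hF n (Finset.mem_coe.1 hn)
    exact ⟨h4.2.2, h4.1, h4.2.1⟩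
  refine ⟨fun θ A hθ hθ1 => ?_, fun ε A hε => ?_⟩
  · obtain ⟨N₀, hN⟩ := h2 θ hθ hθ1 A
    refine near_of_log (hS N₀) fun n _ hn => ?_
    push Not at hn
    exact hN n hn.2 hn.1
  · obtain ⟨N₀, hN⟩ := h3 ε hε A
    refine near_of_log (hS N₀) fun n _ hn => ?_
    push Not at hn
    exact hN n hn.2 hn.1

end Pool.Agent.Results.MP_e9eb55_nt.RealPowers
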